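import Pool.Agent.Lib_MP_d26ff6_al.Defs
import Pool.Agent.R4.StmtT2
import Pool.Agent.R4.Q45
import Pool.Agent.R4.Case2
import Pool.Agent.R4.SmallAnn
import Pool.Agent.C8.All

/-!
Lower bounds for counterexamples to the elementary type conjecture, for finite quaternionic
structures with `-1 = 1`.
-/

namespace Pool.Agent.Results.MP_d26ff6_al.BoundedRankTheorem

open QS

/-- a finite structure has `2 ^ n` elements -/
theorem card_pow (S : QStruct) (hf : Finite S.G) : ∃ n, Nat.card S.G = 2 ^ n := by
  haveI := hf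
  have h : IsPGroup 2 S.G := fun g => ⟨1, by rw [pow_one, pow_two]; exact S.exp_two g⟩
  exact IsPGroup.iff_card.1 h

/-- the number of values of `q (x, ·)` divides the order -/
theorem card_range_dvd (S : QStruct) (hf : Finite S.G) (x : S.G) :
    Nat.card (Set.range (S.q x)) ∣ Nat.card S.G := by
  haveI : Finite (Additive S.G) := hf
  have h := R4.ncard_img (S := ETC.toData S) (Additive.ofMul x) ⊤
  have e : ((ETC.toData S).q (Additive.ofMul x) ''
      ((⊤ : Submodule (ZMod 2) (Additive S.G)) : Set (Additive S.G))) = Set.range (S.q x) := by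
    ext c
    constructor
    · rintro ⟨a, _, rfl⟩
      exact ⟨Additive.toMul a, rfl⟩
    · rintro ⟨a, rfl⟩
      exact ⟨Additive.ofMul a, trivial, rfl⟩
  rw [e, ← Nat.card_coe_set_eq] at h
  have h2 : Nat.card (⊤ : Submodule (ZMod 2) (Additive S.G)) = Nat.card S.G :=
    Nat.card_congr (Equiv.Set.univ _)
  rw [h2] at h
  exact ⟨_, h.symm⟩

theorem two_pow_le {k n : ℕ} (h : 2 ^ k < 2 ^ n) : 2 ^ (k + 1) ≤ 2 ^ n :=
  Nat.pow_le_pow_right (by norm_num) ((Nat.pow_lt_pow_iff_right (by norm_num)).1 h)

/-- Let `S` be a finite quaternionic structure with `-1 = 1` which is not of elementary type.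
Then its group has at least 512 elements, there are at least 46 quaternions, some map `q (x, ·)`
has at least 32 values, and, if the order of `S` is least possible,
`{y : q (x, y) = 0}` has at least 16 elements for every `x ≠ 1`. -/
theorem result (S : QStruct) (hf : Finite S.G) (hneg : S.neg = 1) (hS : ¬ ElemType S) :
    512 ≤ Nat.card S.G ∧
    46 ≤ Nat.card S.Q ∧
    (∃ x, 32 ≤ Nat.card (Set.range (S.q x))) ∧
    ((∀ T : QStruct, Finite T.G → T.neg = 1 → Nat.card T.G < Nat.card S.G → ElemType T) →
      ∀ x, x ≠ 1 → 16 ≤ Nat.card {y : S.G // S.q x y = S.zero}) := by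
  have hc : R4.Stmt_Case2 := R4.case2_certs C8.all_certs
  obtain ⟨n, hn⟩ := card_pow S hf
  haveI := hf
  refine ⟨?_, ?_, ?_, ?_⟩
  · have h : 2 ^ 8 < 2 ^ n := by
      rw [← hn]
      by_contra hlt
      exact hS (R4.elem_of_256 R4.no_bad hc S hf hneg (by norm_num at hlt; exact hlt))
    have := two_pow_le h
    rw [hn]
    exact le_trans (by norm_num) this
  · by_contra hlt
    exact hS (R4.elem_of_q45 R4.no_bad S hf hneg (by omega))
  · by_contra hlt
    push Not at hlt
    refine hS (R4.elem_of_rank4 R4.no_bad S hf hneg fun x => ?_)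
    obtain ⟨k, _, hk⟩ := (Nat.dvd_prime_pow Nat.prime_two).1
      (hn ▸ card_range_dvd S hf x)
    have h1 := hlt x
    rw [hk] at h1 ⊢
    by_contra h2
    have h3 : 2 ^ 4 < 2 ^ k := by norm_num at h2 ⊢; exact h2
    have := two_pow_le h3
    norm_num at this
    omega
  · intro ih x hx
    by_contra hlt
    obtain ⟨k, hk⟩ := Pool.Agent.ETGP.card_ann_pow (S := ETC.toData S) (Additive.ofMul x)
    have hk' : Nat.card {y : S.G // S.q x y = S.zero} = 2 ^ k := hk
    refine hS (R4.elem_of_ann8 hc S hneg x hx ?_ ih)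
    rw [hk'] at hlt ⊢
    by_contra h2
    have h3 : 2 ^ 3 < 2 ^ k := by norm_num at h2 ⊢; exact h2
    have := two_pow_le h3
    norm_num at this
    omega

end Pool.Agent.Results.MP_d26ff6_al.BoundedRankTheorem
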