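import Pool.Agent.ETB.Final4
import Pool.Agent.EV3.GAll

/-!
The Elementary Type Conjecture for all fields (characteristic not 2, finitely many square
classes).
-/

namespace Pool.Agent.Results.MP_d26ff6_al.FieldTheorem

open Pool.Agent

universe u

/-- Let `F` be a field of characteristic not 2 with finitely many square classes.  Then the
quaternionic structure of `F` exists, and it is of elementary type. -/
theorem result (F : Type u) [Field F] (h2 : (2 : F) ≠ 0)
    (hf : Finite (Fˣ ⧸ (powMonoidHom 2 : Fˣ →* Fˣ).range)) :
    (∃ S, ETB.IsStructOf F S) ∧ ∀ S, ETB.IsStructOf F S → QS.ElemType S :=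
  ETB.all_theorem_u EV3.all F h2 hf

end Pool.Agent.Results.MP_d26ff6_al.FieldTheorem
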