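import Pool.Agent.Lib_MP_d26ff6_al.Defs
import Pool.Agent.H2FIN.Final

/-!
Finiteness theorem for quaternionic structures with a bounded number of values `q (x, ·)`: up to
factors of local type there are only finitely many directly indecomposable ones, so for every bound
the elementary type conjecture is a finite problem.
-/

namespace Pool.Agent.Results.MP_d26ff6_al.FinitenessTheorem

open QS

/-- the bound `2 ^ ((m + 6) ^ (4 ^ m + 2))` -/
def bound (m : ℕ) : ℕ := 2 ^ ((m + 6) ^ (4 ^ m + 2))

/-- direct products of structures of local type and of finite structures with at most `bound m`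
elements in which every `q (x, ·)` has at most `m` values -/
inductive Prods (m : ℕ) : QStruct → Prop
  | small (S : QStruct) : Finite S.G → (∀ x, Nat.card (Set.range (S.q x)) ≤ m) →
      Nat.card S.G ≤ bound m → Prods m S
  | loc (S : QStruct) : Finite S.G → 8 ≤ Nat.card S.G →
      (∀ a, (∀ b, S.q a b = S.zero) → a = 1) → Nat.card S.Q = 2 → Prods m S
  | prod (S T : QStruct) : Prods m S → Prods m T → Prods m (prod S T)
  | iso (S T : QStruct) : Iso S T → Prods m S → Prods m T

/-- Let `m` be any number.  (1) Every finite quaternionic structure (any `-1`) in which every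
`q (x, ·)` has at most `m` values is a direct product of structures of local type and of structures
with at most `bound m` elements.  (2) If the structures as in (1) with at most `bound m` elements
are of elementary type, then so are all structures as in (1).  (3) The same with `at most m
quaternions` in place of `at most m values for every x`. -/
theorem result (m : ℕ) :
    (∀ S : QStruct, Finite S.G → (∀ x, Nat.card (Set.range (S.q x)) ≤ m) → Prods m S) ∧
    ((∀ S : QStruct, Finite S.G → (∀ x, Nat.card (Set.range (S.q x)) ≤ m) →
        Nat.card S.G ≤ bound m → ElemType S) →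
      ∀ S : QStruct, Finite S.G → (∀ x, Nat.card (Set.range (S.q x)) ≤ m) → ElemType S) ∧
    ((∀ S : QStruct, Finite S.G → Nat.card S.Q ≤ m → Nat.card S.G ≤ bound m → ElemType S) →
      ∀ S : QStruct, Finite S.G → Nat.card S.Q ≤ m → ElemType S) := by
  refine ⟨fun S hf hb => ?_, fun h S hf hb => ?_, fun h S hf hb => ?_⟩
  · have h1 := H2FIN.finiteness m S hf hb
    clear hf hb
    induction h1 with
    | small S h1 h2 => exact Prods.small S h1.1 h1.2 h2
    | loc S h1 h2 h3 h4 => exact Prods.loc S h1 h2 h3 h4
    | prod S T _ _ h1 h2 => exact Prods.prod S T h1 h2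
    | iso S T h1 _ h2 => exact Prods.iso S T h1 h2
  · exact H2FIN.elem_of_sumOf (fun T hT hc => h T hT.1 hT.2 hc) S (H2FIN.finiteness m S hf hb)
  · exact H2FIN.elem_of_sumOf (fun T hT hc => h T hT.1 hT.2 hc) S (H2FIN.finiteness_card m S hf hb)

end Pool.Agent.Results.MP_d26ff6_al.FinitenessTheorem
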